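import Pool.Agent.H813R2.Sew21

/-!
# Hyperbolicity of conformal sewings of a half-strip is not stable

The sewing `x ↦ 2 x + i` is conformal and hyperbolic (the surface is the ring
`exp (- π ^ 2 / (2 log 2)) < |w| < exp (π ^ 2 / (2 log 2))`, with uniformizing function
`exp ((2 π i / log 2) log (z + i))` up to a factor), but for every positive continuous `ε` there is
a conformal sewing `x ↦ β x + i` with `|β x - 2 x| < ε x` for all `x > 0` which is not hyperbolic.

Idea. On disjoint intervals `[n, 4 n]` (`n = 16, 16 ^ 2, ...`) replace `2 x` by
`(2 / N) b (N x)`, where `1 / N` is smaller than `ε` there and `b` commutes with `u ↦ u + 1` and is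
given by `tan (π b) = e ^ (N n) tan (π u)`. The sewing identifies the half circle of radius
`arctan (e ^ (-τ)) / π` about an integer, on the bottom edge, with half circles of radius
`arctan (e ^ (τ - N n)) / π` about the two neighbouring half-integers, on the top edge (all scaled).
So there are closed curves around the end which follow half circles only, and the length-area
method shows that the extremal length of the family of curves separating the two boundary parts of
the `k`-th barrier is bounded below by an absolute constant. The energy of a continuous
logarithm of the map onto a ring would be infinite. The complex structure near the break points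
`n`, `4 n` is given by the welding maps `T ↦ T ^ κ`, `κ = 2 π i / (2 π i ± N n)`.

The definitions used in the statement are in `Pool/Agent/H813R2/SewDef.lean`.
-/

set_option autoImplicit false

open Set Pool.Agent.H813R2.Sew

namespace Pool.Agent.Results.MP_c26c1b_an.HyperbolicityUnstable

/-- The sewing `x ↦ 2 x + i` of the half-strip is conformal and hyperbolic, but for every positive
continuous function `ε` on `(0, ∞)` there is a conformal sewing `x ↦ β x + i` with
`|β x - 2 x| < ε x` for all `x > 0` which is not hyperbolic. -/
theorem result :
    ConformalSewing (fun x => 2 * x) ∧ HyperbolicSewing (fun x => 2 * x) ∧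
    ∀ ε : ℝ → ℝ, ContinuousOn ε (Ioi 0) → (∀ x, 0 < x → 0 < ε x) →
      ∃ β : ℝ → ℝ, ConformalSewing β ∧ (∀ x, 0 < x → |β x - 2 * x| < ε x) ∧
        ¬ HyperbolicSewing β :=
  main_sew

end Pool.Agent.Results.MP_c26c1b_an.HyperbolicityUnstable
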